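import Mathlib

namespace Pool.Agent.Results.MP_2ac10d_nt.PowThree

/-- the set S of all n greater than 1 with 2^n congruent to 3 modulo n. -/
def S : Set ℕ := {n | 1 < n ∧ 2 ^ n ≡ 3 [MOD n]}

/-- the set P of primes that divide no element of S. -/
def P : Set ℕ := {p | p.Prime ∧ ∀ n ∈ S, ¬ p ∣ n}

/-- the residue of m modulo 24 is one of 1, 5, 19, 23. -/
def C (m : ℕ) : Prop := m % 24 = 1 ∨ m % 24 = 5 ∨ m % 24 = 19 ∨ m % 24 = 23

instance (m : ℕ) : Decidable (C m) := by unfold C; infer_instance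

theorem mem_of_zmod {n : ℕ} (h1 : 1 < n) (h : (2 : ZMod n) ^ n = 3) : n ∈ S := by
  refine ⟨h1, ?_⟩
  rw [← ZMod.natCast_eq_natCast_iff]
  exact_mod_cast h

theorem in_S_1 : (4700063497 : ℕ) ∈ S := mem_of_zmod (by norm_num) (by reduce_mod_char)

theorem in_S_2 : (3468371109448915 : ℕ) ∈ S := mem_of_zmod (by norm_num) (by reduce_mod_char)

theorem two_pow_mod {n p : ℕ} (hn : n ∈ S) (hp : p ∣ n) : 2 ^ n ≡ 3 [MOD p] :=
  hn.2.of_dvd hp

theorem odd_of_mem {n : ℕ} (hn : n ∈ S) : n % 2 = 1 := by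
  by_contra h
  have h2 : 2 ∣ n := by omega
  have := two_pow_mod hn h2
  unfold Nat.ModEq at this
  have h1 : 1 < n := hn.1
  rw [Nat.pow_mod] at this
  simp at this
  have : (0 : ℕ) ^ n = 0 := by
    apply Nat.zero_pow; omega
  omega

theorem not_three_dvd {n : ℕ} (hn : n ∈ S) : ¬ 3 ∣ n := by
  intro h
  have := two_pow_mod hn h
  have h3 : 3 ∣ 2 ^ n := by
    have h4 : 2 ^ n % 3 = 3 % 3 := this
    omega
  have := Nat.Prime.dvd_of_dvd_pow (by norm_num) h3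
  omega

/-- the squareness of 6 modulo p forces p modulo 24. -/
theorem mod24_of_sq {p : ℕ} [Fact p.Prime] (h2 : p ≠ 2) (h3 : p ≠ 3)
    (h : IsSquare (6 : ZMod p)) : C p := by
  unfold C
  have hp : p.Prime := Fact.out
  have hodd : p % 2 = 1 := by
    rcases hp.eq_two_or_odd with h | h
    · exact absurd h h2
    · exact h
  have h3' : ¬ 3 ∣ p := by
    intro h
    exact h3 ((Nat.prime_dvd_prime_iff_eq (by norm_num) hp).1 h).symm
  have h6 : ((6 : ℤ) : ZMod p) ≠ 0 := by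
    intro h0
    have : ((6 : ℕ) : ZMod p) = 0 := by exact_mod_cast h0
    rw [ZMod.natCast_eq_zero_iff] at this
    have h7 : p ∣ 2 * 3 := by simpa using this
    rcases (Nat.Prime.dvd_mul hp).1 h7 with h | h
    · exact h2 ((Nat.prime_dvd_prime_iff_eq hp (by norm_num)).1 h)
    · exact h3 ((Nat.prime_dvd_prime_iff_eq hp (by norm_num)).1 h)
  have hL : legendreSym p 6 = 1 := by
    rw [legendreSym.eq_one_iff p h6]
    exact_mod_cast h
  rw [jacobiSym.legendreSym.to_jacobiSym] at hL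
  rw [jacobiSym.mod_right 6 (Nat.odd_iff.2 hodd)] at hL
  have e : p % (4 * (6 : ℤ).natAbs) = p % 24 := by norm_num
  rw [e] at hL
  have hlt : p % 24 < 24 := Nat.mod_lt _ (by norm_num)
  have c1 : (p % 24) % 2 = 1 := by omega
  have c2 : (p % 24) % 3 ≠ 0 := by omega
  generalize p % 24 = r at *
  interval_cases r <;> simp_all <;> norm_num at hL

theorem ne_two_three {n p : ℕ} (hn : n ∈ S) (hd : p ∣ n) : p ≠ 2 ∧ p ≠ 3 := by
  constructor
  · rintro rfl
    have := odd_of_mem hn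
    omega
  · rintro rfl
    exact not_three_dvd hn hd

theorem zmod_eq {n p : ℕ} (hn : n ∈ S) (hd : p ∣ n) : (2 : ZMod p) ^ n = 3 := by
  have := two_pow_mod hn hd
  rw [← ZMod.natCast_eq_natCast_iff] at this
  exact_mod_cast this

theorem C_of_dvd {n p : ℕ} (hn : n ∈ S) (hp : p.Prime) (hd : p ∣ n) : C p := by
  have : Fact p.Prime := ⟨hp⟩
  obtain ⟨h2, h3⟩ := ne_two_three hn hd
  apply mod24_of_sq h2 h3
  have h := zmod_eq hn hd
  have hodd := odd_of_mem hn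
  refine ⟨2 ^ ((n + 1) / 2), ?_⟩
  rw [← pow_add]
  have e : (n + 1) / 2 + (n + 1) / 2 = n + 1 := by omega
  rw [e, pow_succ, h]
  norm_num

theorem C_mul {a b : ℕ} (ha : C a) (hb : C b) : C (a * b) := by
  unfold C at *
  rw [Nat.mul_mod]
  rcases ha with h | h | h | h <;> rcases hb with h' | h' | h' | h' <;> rw [h, h'] <;> decide

theorem C_of_factors (n : ℕ) : n ≠ 0 → (∀ p, p.Prime → p ∣ n → C p) → C n := by
  induction n using Nat.recOnMul with
  | zero => intro h; exact absurd rfl h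
  | one => intro _ _; decide
  | prime p hp => intro _ h; exact h p hp dvd_rfl
  | mul a b iha ihb =>
    intro h0 h
    exact C_mul (iha (left_ne_zero_of_mul h0) fun p hp hd => h p hp (hd.mul_right b))
      (ihb (right_ne_zero_of_mul h0) fun p hp hd => h p hp (hd.mul_left a))

theorem C_of_mem {n : ℕ} (hn : n ∈ S) : C n :=
  C_of_factors n (by have : 1 < n := hn.1; omega) fun _ hp hd => C_of_dvd hn hp hd

theorem log_modEq {n p a : ℕ} (hp : p.Prime) (ha : (2 : ZMod p) ^ a = 3) (hn : n ∈ S)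
    (hd : p ∣ n) : n ≡ a [MOD orderOf (2 : ZMod p)] := by
  have : Fact p.Prime := ⟨hp⟩
  have h2 := (ne_two_three hn hd).1
  have hne : (2 : ZMod p) ≠ 0 := by
    intro h0
    have : ((2 : ℕ) : ZMod p) = 0 := by exact_mod_cast h0
    rw [ZMod.natCast_eq_zero_iff] at this
    exact h2 ((Nat.prime_dvd_prime_iff_eq hp (by norm_num)).1 this)
  have e : (Units.mk0 (2 : ZMod p) hne) ^ n = (Units.mk0 (2 : ZMod p) hne) ^ a := by
    apply Units.ext
    push_cast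
    simp only [Units.val_mk0]
    rw [zmod_eq hn hd, ha]
  rw [pow_eq_pow_iff_modEq] at e
  rw [← orderOf_units] at e
  simpa using e

theorem forced {n p q a : ℕ} (hp : p.Prime) (hq : q ∣ orderOf (2 : ZMod p)) (hqa : q ∣ a)
    (ha : (2 : ZMod p) ^ a = 3) (hn : n ∈ S) (hd : p ∣ n) : q ∣ n := by
  have h := (log_modEq hp ha hn hd).of_dvd hq
  exact (Nat.ModEq.dvd_iff h dvd_rfl).2 hqa

theorem closure {p q a : ℕ} (hp : p.Prime) (hq : q ∈ P) (hqo : q ∣ orderOf (2 : ZMod p))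
    (hqa : q ∣ a) (ha : (2 : ZMod p) ^ a = 3) : p ∈ P :=
  ⟨hp, fun _ hn hd => hq.2 _ hn (forced hp hqo hqa ha hn hd)⟩

theorem recip {p a : ℕ} (hp : p.Prime) (h24 : 24 ∣ orderOf (2 : ZMod p))
    (ha : (2 : ZMod p) ^ a = 3) (hC : ¬ C a) : p ∈ P := by
  refine ⟨hp, fun n hn hd => hC ?_⟩
  have h : n % 24 = a % 24 := (log_modEq hp ha hn hd).of_dvd h24
  have hc := C_of_mem hn
  unfold C at *
  rwa [h] at hc

theorem compat {p q a b : ℕ} (hp : p.Prime) (hq : q.Prime) (hqo : q ∣ orderOf (2 : ZMod p))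
    (hqa : q ∣ a) (ha : (2 : ZMod p) ^ a = 3) (hb : (2 : ZMod q) ^ b = 3)
    (hne : ¬ a ≡ b [MOD Nat.gcd (orderOf (2 : ZMod p)) (orderOf (2 : ZMod q))]) : p ∈ P := by
  refine ⟨hp, fun n hn hd => hne ?_⟩
  have h1 := (log_modEq hp ha hn hd).of_dvd (Nat.gcd_dvd_left _ (orderOf (2 : ZMod q)))
  have h2 := (log_modEq hq hb hn (forced hp hqo hqa ha hn hd)).of_dvd
    (Nat.gcd_dvd_right (orderOf (2 : ZMod p)) _)
  exact h1.symm.trans h2

theorem two_mem : 2 ∈ P := ⟨by norm_num, fun _ hn hd => (ne_two_three hn hd).1 rfl⟩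

theorem three_mem : 3 ∈ P := ⟨by norm_num, fun _ hn hd => (ne_two_three hn hd).2 rfl⟩

theorem mem_P_of_not_C {p : ℕ} (hp : p.Prime) (h : ¬ C p) : p ∈ P :=
  ⟨hp, fun _ hn hd => h (C_of_dvd hn hp hd)⟩

theorem infinitely_many (N : ℕ) : ∃ p, N < p ∧ p ∈ P ∧ ∃ a, (2 : ZMod p) ^ a = 3 := by
  set k := (N + 2).factorial with hk
  have hk2 : 2 ≤ k := by
    calc 2 ≤ N + 2 := by omega
      _ ≤ k := Nat.self_le_factorial _
  have h4 : 4 ^ k % 24 = 16 := by
    have : ∀ j, 4 ^ (j + 2) % 24 = 16 := by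
      intro j
      induction j with
      | zero => decide
      | succ j ih =>
        rw [show j + 1 + 2 = (j + 2) + 1 by ring, pow_succ, Nat.mul_mod, ih]
    obtain ⟨j, hj⟩ := Nat.exists_eq_add_of_le hk2
    rw [hj, add_comm 2 j]
    exact this j
  have hM : (4 ^ k - 3) % 24 = 13 ∧ 3 ≤ 4 ^ k ∧ 4 ^ k - 3 ≠ 0 := by
    generalize 4 ^ k = M at h4 ⊢
    omega
  obtain ⟨hM, hge, hne0⟩ := hM
  have hnC : ¬ C (4 ^ k - 3) := by
    unfold C
    omega
  have : ∃ p, p.Prime ∧ p ∣ 4 ^ k - 3 ∧ ¬ C p := by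
    by_contra hcon
    push Not at hcon
    exact hnC (C_of_factors _ hne0 hcon)
  obtain ⟨p, hp, hd, hC⟩ := this
  have : Fact p.Prime := ⟨hp⟩
  have hcast : ((4 : ZMod p)) ^ k = 3 := by
    have h1 : ((4 ^ k - 3 : ℕ) : ZMod p) = 0 := (ZMod.natCast_eq_zero_iff _ _).2 hd
    rw [Nat.cast_sub hge] at h1
    push_cast at h1
    exact sub_eq_zero.1 h1
  have hp2 : p ≠ 2 := by
    rintro rfl
    omega
  refine ⟨p, ?_, mem_P_of_not_C hp hC, 2 * k, ?_⟩
  · by_contra hle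
    push Not at hle
    have hdiv : p - 1 ∣ k := by
      apply Nat.dvd_factorial
      · have := hp.two_le
        omega
      · omega
    have h4ne : (4 : ZMod p) ≠ 0 := by
      intro h0
      have : ((4 : ℕ) : ZMod p) = 0 := by exact_mod_cast h0
      rw [ZMod.natCast_eq_zero_iff] at this
      have h5 : p ∣ 2 ^ 2 := by simpa using this
      exact hp2 ((Nat.prime_dvd_prime_iff_eq hp (by norm_num)).1 (hp.dvd_of_dvd_pow h5))
    obtain ⟨c, hc⟩ := hdiv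
    rw [hc, pow_mul, ZMod.pow_card_sub_one_eq_one h4ne, one_pow] at hcast
    have h2 : ((2 : ℕ) : ZMod p) = 0 := by
      have e : (2 : ZMod p) = 3 - 1 := by norm_num
      push_cast
      rw [e, ← hcast, sub_self]
    rw [ZMod.natCast_eq_zero_iff] at h2
    exact hp2 ((Nat.prime_dvd_prime_iff_eq hp (by norm_num)).1 h2)
  · rw [pow_mul]
    norm_num
    exact hcast

theorem per {p T : ℕ} (h : 2 ^ T % p = 1 % p) (n : ℕ) : 2 ^ n % p = 2 ^ (n % T) % p := by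
  conv_lhs => rw [← Nat.div_add_mod n T, pow_add, pow_mul, Nat.mul_mod, Nat.pow_mod, h,
    ← Nat.pow_mod, one_pow, ← Nat.mul_mod, one_mul]

theorem nopow {p T : ℕ} (hp : p.Prime) (hT : 0 < T) (h : 2 ^ T % p = 1 % p)
    (hall : ∀ r < T, 2 ^ r % p ≠ 3 % p) : p ∈ P :=
  ⟨hp, fun n hn hd => hall _ (Nat.mod_lt n hT) ((per h n).symm.trans (two_pow_mod hn hd))⟩

theorem mem43 : 43 ∈ P := nopow (T := 14) (by norm_num) (by norm_num) (by norm_num) (by decide)

theorem mem73 : 73 ∈ P := nopow (T := 9) (by norm_num) (by norm_num) (by norm_num) (by decide)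

theorem mem67 : 67 ∈ P := by
  refine ⟨by norm_num, fun n hn hd => ?_⟩
  have h1 := (per (p := 67) (T := 66) (by norm_num) n).symm.trans (two_pow_mod hn hd)
  have h2 : ∀ r < 66, 2 ^ r % 67 = 3 % 67 → r % 3 = 0 := by decide +kernel
  have h3 := h2 _ (Nat.mod_lt n (by norm_num)) h1
  exact not_three_dvd hn (by omega)

theorem mem1489 : 1489 ∈ P := by
  refine ⟨by norm_num, fun n hn hd => ?_⟩
  have h1 := (per (p := 1489) (T := 744) (by decide +kernel) n).symm.trans (two_pow_mod hn hd)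
  have h2 : ∀ r < 744, 2 ^ r % 1489 = 3 % 1489 → r % 24 = 13 := by decide +kernel
  have h3 := h2 _ (Nat.mod_lt n (by norm_num)) h1
  have h4 := C_of_mem hn
  unfold C at h4
  omega

theorem mem4801 : 4801 ∈ P := by
  refine ⟨by norm_num, fun n hn hd => ?_⟩
  have h1 := (per (p := 4801) (T := 1200) (by decide +kernel) n).symm.trans (two_pow_mod hn hd)
  have h2 : ∀ r < 1200, 2 ^ r % 4801 = 3 % 4801 → r % 20 = 5 := by decide +kernel
  have h3 := h2 _ (Nat.mod_lt n (by norm_num)) h1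
  have h5 := (per (p := 5) (T := 4) (by norm_num) n).symm.trans
    (two_pow_mod hn (show 5 ∣ n by omega))
  have h6 : ∀ r < 4, 2 ^ r % 5 = 3 % 5 → r = 3 := by decide +kernel
  have h7 := h6 _ (Nat.mod_lt n (by norm_num)) h5
  omega

theorem explicit {p : ℕ} (hp : p.Prime) (hlt : p < 100) (h : p ≠ 23 ∧ p ≠ 29 ∧ p ≠ 53 ∧ p ≠ 71) :
    p ∈ P ↔ ¬ (p = 5 ∨ p = 19 ∨ p = 47 ∨ p = 97) := by
  constructor
  · rintro hP (rfl | rfl | rfl | rfl)
    · exact hP.2 _ in_S_2 (by norm_num)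
    · exact hP.2 _ in_S_1 (by norm_num)
    · exact hP.2 _ in_S_1 (by norm_num)
    · exact hP.2 _ in_S_2 (by norm_num)
  · intro hn
    by_cases hC : C p
    · have key : ∀ q < 100, ¬ (q = 23 ∨ q = 29 ∨ q = 53 ∨ q = 71 ∨ q = 5 ∨ q = 19 ∨ q = 47 ∨
          q = 97) → Nat.Prime q ∧ C q → q = 43 ∨ q = 67 ∨ q = 73 := by decide +kernel
      have hn' : ¬ (p = 23 ∨ p = 29 ∨ p = 53 ∨ p = 71 ∨ p = 5 ∨ p = 19 ∨ p = 47 ∨ p = 97) := by
        omega
      rcases key p hlt hn' ⟨hp, hC⟩ with rfl | rfl | rfl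
      · exact mem43
      · exact mem67
      · exact mem73
    · exact mem_P_of_not_C hp hC

/-- The main result. -/
theorem result :
    (∀ n ∈ S, C n ∧ ∀ p, p.Prime → p ∣ n → C p) ∧
    (∀ p, p.Prime → ¬ C p → p ∈ P) ∧
    (∀ p q a, p.Prime → q ∈ P → q ∣ orderOf (2 : ZMod p) → q ∣ a → (2 : ZMod p) ^ a = 3 →
      p ∈ P) ∧
    (∀ p a, p.Prime → 24 ∣ orderOf (2 : ZMod p) → (2 : ZMod p) ^ a = 3 → ¬ C a → p ∈ P) ∧
    (∀ p q a b, p.Prime → q.Prime → q ∣ orderOf (2 : ZMod p) → q ∣ a → (2 : ZMod p) ^ a = 3 →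
      (2 : ZMod q) ^ b = 3 →
      ¬ a ≡ b [MOD Nat.gcd (orderOf (2 : ZMod p)) (orderOf (2 : ZMod q))] → p ∈ P) ∧
    (∀ N, ∃ p, N < p ∧ p ∈ P ∧ ∃ a, (2 : ZMod p) ^ a = 3) ∧
    (∀ p, p.Prime → p < 100 → p ≠ 23 ∧ p ≠ 29 ∧ p ≠ 53 ∧ p ≠ 71 →
      (p ∈ P ↔ ¬ (p = 5 ∨ p = 19 ∨ p = 47 ∨ p = 97))) ∧
    (1489 ∈ P ∧ 4801 ∈ P) :=
  ⟨fun _ hn => ⟨C_of_mem hn, fun _ hp hd => C_of_dvd hn hp hd⟩,
    fun _ hp h => mem_P_of_not_C hp h,
    fun _ _ _ hp hq hqo hqa ha => closure hp hq hqo hqa ha,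
    fun _ _ hp h24 ha hC => recip hp h24 ha hC,
    fun _ _ _ _ hp hq hqo hqa ha hb hne => compat hp hq hqo hqa ha hb hne,
    infinitely_many,
    fun _ hp hlt h => explicit hp hlt h,
    mem1489, mem4801⟩

end Pool.Agent.Results.MP_2ac10d_nt.PowThree
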